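import Pool.Agent.Helper98.DISC.GoalsC

/-!
# Project DISC, packet DC1
-/

open MeasureTheory Set Filter Topology

noncomputable section

namespace Pool.Agent.Helper39.DISC

open Pool.Agent.Helper98.DISC

theorem ne_of_cr {a b w : ℂ} (h : 0 < cr a w b) : a ≠ w ∧ b ≠ w ∧ a ≠ b := by
  refine ⟨?_, ?_, ?_⟩
  · rintro rfl
    simp [cr] at h
  · rintro rfl
    unfold cr at h
    nlinarith
  · rintro rfl
    simp [cr] at h

theorem dlt_self (a b w : ℂ) : dlt a b w w = 0 := by
  unfold dlt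
  rw [mul_comm (a - w) (w - b), Complex.mul_conj]
  exact Complex.ofReal_im _

/-- **DC1.** -/
theorem dc1 (hBAL : S_BAL) (hSAM : S_SAM) (hLEV : S_LEV) (hKG : S_KG) : S_DC1 := by
  refine ⟨?_, ?_⟩
  · intro ι _ _ a b φ hφ hab j z
    constructor
    · rintro ⟨⟨H, hd⟩, hlt⟩
      refine ⟨⟨H.ab j, hd j⟩, ⟨⟨fun i => H.a2 _ _ i.2, fun i i' h => H.a2 _ _ h,
        fun i i' h => H.p3 _ _ _ h i'.2, fun i i' i'' h h' => H.p3 _ _ _ h h'⟩,
        fun i => hlt _ (ne_of_lt i.2)⟩, ⟨⟨fun i => H.b2 _ _ i.2, fun i i' h => H.p3 _ _ _ i.2 h,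
        fun i i' h => H.b2 _ _ h, fun i i' i'' h h' => H.p3 _ _ _ h h'⟩,
        fun i => hlt _ (ne_of_gt i.2)⟩⟩
    · rintro ⟨⟨hw, hdw⟩, ⟨hL, hdL⟩, hR, hdR⟩
      obtain ⟨haw, hbw, -⟩ := ne_of_cr hw
      obtain ⟨⟨hal, hps, hsum⟩, -, -, h3⟩ := hSAM a b (z j) hw
      obtain ⟨c, R, κ, hR0, hκ, hac, hbc, hdq⟩ :=
        hBAL a b (al a (z j) b + ps a (z j) b) ⟨by linarith, hsum⟩ hab
      have hpos : 0 < ‖z j - b‖ * ‖z j - a‖ :=
        mul_pos (norm_pos_iff.2 (sub_ne_zero.2 hbw.symm)) (norm_pos_iff.2 (sub_ne_zero.2 haw.symm))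
      have hlt : ∀ i, i ≠ j → dlt a b (z j) (z i) < 0 := by
        intro i hi
        rcases lt_or_gt_of_ne hi with h | h
        · exact hdL ⟨i, h⟩
        · exact hdR ⟨i, h⟩
      have hwc : ‖z j - c‖ = R := by
        have h4 := h3 (z j)
        rw [dlt_self, hdq] at h4
        have h5 : ‖z j - c‖ ^ 2 - R ^ 2 = 0 := by
          rcases mul_eq_zero.1 h4.symm with h | h
          · exact absurd h hpos.ne'
          · rcases mul_eq_zero.1 h with h | h
            · exact absurd h hκ.ne'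
            · exact h
        have h6 : ‖z j - c‖ ^ 2 = R ^ 2 := by linarith
        exact (pow_left_inj₀ (norm_nonneg _) hR0.le (by norm_num)).1 h6
      have hin : ∀ i, i ≠ j → ‖z i - c‖ < R := by
        intro i hi
        have h4 := hlt i hi
        rw [h3, hdq] at h4
        have h5 : ‖z i - c‖ ^ 2 - R ^ 2 < 0 := by
          by_contra h
          push Not at h
          have := mul_nonneg hpos.le (mul_nonneg hκ.le h)
          linarith
        have h6 : ‖z i - c‖ ^ 2 < R ^ 2 := by linarith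
        exact (pow_lt_pow_iff_left₀ (norm_nonneg _) hR0.le (by norm_num)).1 h6
      have hch : Chain a b z := (hKG ι c a b R z j hac hbc hwc haw hbw hin hL hR).1 hw
      obtain ⟨l1, l2⟩ := hLEV a b (z j) hw
      refine ⟨⟨hch, fun i => ?_⟩, hlt⟩
      by_cases hi : i = j
      · rw [hi]; exact hdw
      · have h4 := hch.ab i
        have h5 := ((l2 (z i) h4).1).1 (hlt i hi)
        have h6 := (l1 φ hφ).1 hdw
        exact ((hLEV a b (z i) h4).1 φ hφ).2 (h5.trans h6)
  · intro ι _ _ a b w hw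
    obtain ⟨haw, hbw, hab⟩ := ne_of_cr hw
    obtain ⟨-, h1, h2, -⟩ := hSAM a b w hw
    have p1 : 0 < ‖w - b‖ * ‖a - b‖ :=
      mul_pos (norm_pos_iff.2 (sub_ne_zero.2 hbw.symm)) (norm_pos_iff.2 (sub_ne_zero.2 hab))
    have p2 : 0 < ‖a - b‖ * ‖w - a‖ :=
      mul_pos (norm_pos_iff.2 (sub_ne_zero.2 hab)) (norm_pos_iff.2 (sub_ne_zero.2 haw.symm))
    constructor
    · ext z
      simp only [EL, ES, mem_ofPred_eq]
      refine and_congr_right fun _ => forall_congr' fun i => ?_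
      rw [h1]
      exact ⟨fun h => by
        by_contra h'
        push Not at h'
        exact absurd h (not_lt.2 (mul_nonneg p1.le h')), fun h => mul_neg_of_pos_of_neg p1 h⟩
    · ext z
      simp only [ER, ES, mem_ofPred_eq]
      refine and_congr_right fun _ => forall_congr' fun i => ?_
      rw [h2]
      exact ⟨fun h => by
        by_contra h'
        push Not at h'
        exact absurd h (not_lt.2 (mul_nonneg p2.le h')), fun h => mul_neg_of_pos_of_neg p2 h⟩

end Pool.Agent.Helper39.DISC
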